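import Pool.Agent.TH761.EA.Seg

/-!
# Existence of ground states for generic couplings
-/

set_option autoImplicit false

open Finset

namespace Pool.Agent.TH761.EA

variable {V I : Type} [Fintype V] [Fintype I] {s t : I → V}

/-- two different patterns of satisfied bonds have different energies -/
def Generic (s t : I → V) (J : ℤ × (V ⊕ I) → ℝ) : Prop :=
  ∀ (p q : ℤ) (A B : Finset (ℤ × V)),
    (∃ e : ℤ × (V ⊕ I), e.1 ∈ Ico p q ∧ bd s t (cf A) e ≠ bd s t (cf B) e) →
    S s t J (cf A) p q ≠ S s t J (cf B) p q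

lemma exists_bond {ρ σ : ℤ × V → ℝ} (hρ : Pm ρ) {p q : ℤ}
    (hb : ∀ n x, n ≤ p ∨ q ≤ n → ρ (n, x) = σ (n, x)) (hne : ρ ≠ σ) :
    ∃ e : ℤ × (V ⊕ I), e.1 ∈ Ico p q ∧ bd s t ρ e ≠ bd s t σ e := by
  by_contra hcon
  push Not at hcon
  apply hne
  funext ⟨n, x⟩
  by_cases hn : n ≤ p ∨ q ≤ n
  · exact hb n x hn
  · push Not at hn
    have hind : ∀ m, p ≤ m → m ≤ q → ρ (m, x) = σ (m, x) := by
      intro m hm
      induction m, hm using Int.leInduction with
      | base => intro _; exact hb p x (Or.inl le_rfl)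
      | succ m hm ih =>
        intro hmq
        have h1 := hcon (m, Sum.inl x) (Finset.mem_Ico.2 ⟨hm, by simpa using by omega⟩)
        have h2 := ih (by omega)
        simp only [bd] at h1
        rw [← h2] at h1
        rcases hρ (m, x) with h3 | h3
        · rw [h3] at h1; linarith
        · rw [h3] at h1; linarith
    exact hind n hn.1.le hn.2.le

theorem exists_ground {J : ℤ × (V ⊕ I) → ℝ} (hJ : Generic s t J) : ∃ σ, Gr s t J σ := by
  classical
  have hmax : ∀ N : ℕ, ∃ A : Finset (ℤ × V), ∀ ρ : ℤ × V → ℝ, Pm ρ →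
      S s t J ρ (-N) N ≤ S s t J (cf A) (-N) N := by
    intro N
    obtain ⟨A, -, hA⟩ := Finset.exists_max_image
      ((Icc (-(N : ℤ)) N ×ˢ (Finset.univ : Finset V)).powerset)
      (fun A => S s t J (cf A) (-N) N) ⟨∅, by simp⟩
    refine ⟨A, fun ρ hρ => ?_⟩
    rw [← S_cf_neg hρ]
    exact hA _ (Finset.mem_powerset.2 (Finset.filter_subset _ _))
  choose A hA using hmax
  set U : Ultrafilter ℕ := Filter.hyperfilter ℕ with hU
  set σ : ℤ × V → ℝ := fun v => if ∀ᶠ N in (U : Filter ℕ), cf (A N) v = 1 then 1 else -1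
    with hσ
  have hlim : ∀ v, ∀ᶠ N in (U : Filter ℕ), cf (A N) v = σ v := by
    intro v
    by_cases h : ∀ᶠ N in (U : Filter ℕ), cf (A N) v = 1
    · simp only [hσ, h, if_true]
    · simp only [hσ, h, if_false]
      rw [← Ultrafilter.eventually_not] at h
      filter_upwards [h] with N hN
      rcases cf_pm (A N) v with h1 | h1
      · exact absurd h1 hN
      · exact h1
  have hPσ : Pm σ := by
    intro v; simp only [hσ]; split_ifs <;> simp
  refine ⟨σ, hPσ, ?_⟩
  intro p q ρ hρ hb hne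
  have hpq : p < q := by
    by_contra hc
    apply hne
    funext ⟨n, x⟩
    exact hb n x (by omega)
  have h1 : ∀ᶠ N in (U : Filter ℕ), ∀ v ∈ Icc p q ×ˢ (Finset.univ : Finset V),
      cf (A N) v = σ v := (Filter.eventually_all_finset _).2 fun v _ => hlim v
  have h2 : ∀ᶠ N : ℕ in (U : Filter ℕ), -(N : ℤ) ≤ p ∧ q ≤ (N : ℤ) := by
    have h3 : ∀ᶠ N : ℕ in Filter.atTop, -(N : ℤ) ≤ p ∧ q ≤ (N : ℤ) := by
      filter_upwards [Filter.eventually_ge_atTop (p.natAbs + q.natAbs)] with N hN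
      omega
    rw [← Nat.cofinite_eq_atTop] at h3
    exact Filter.hyperfilter_le_cofinite h3
  obtain ⟨N, hN1, hN2⟩ := (h1.and h2).exists
  set ρN : ℤ × V → ℝ := fun v => if p < v.1 ∧ v.1 < q then ρ v else cf (A N) v with hρN
  have hPN : Pm ρN := by
    intro v; simp only [hρN]; split_ifs
    · exact hρ v
    · exact cf_pm _ v
  have h3 := hA N ρN hPN
  rw [S_add ρN hN2.1 (by omega : p ≤ (N : ℤ)), S_add ρN hpq.le hN2.2,
    S_add (cf (A N)) hN2.1 (by omega : p ≤ (N : ℤ)), S_add (cf (A N)) hpq.le hN2.2] at h3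
  have e1 : S s t J ρN (-(N : ℤ)) p = S s t J (cf (A N)) (-(N : ℤ)) p := by
    refine S_congr fun n x hn hn' => ?_
    have : ¬ (p < n ∧ n < q) := by omega
    simp [hρN, this]
  have e2 : S s t J ρN q N = S s t J (cf (A N)) q N := by
    refine S_congr fun n x hn hn' => ?_
    have : ¬ (p < n ∧ n < q) := by omega
    simp [hρN, this]
  have e3 : S s t J ρN p q = S s t J ρ p q := by
    refine S_congr fun n x hn hn' => ?_
    simp only [hρN]
    split_ifs with hc
    · rfl
    · rw [hN1 (n, x) (by simp [hn, hn']), hb n x (by omega)]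
  have e4 : S s t J (cf (A N)) p q = S s t J σ p q := by
    refine S_congr fun n x hn hn' => ?_
    rw [hN1 (n, x) (by simp [hn, hn'])]
  have hle : S s t J ρ p q ≤ S s t J σ p q := by
    rw [e1, e2, e3, e4] at h3; linarith
  refine lt_of_le_of_ne hle ?_
  rw [← S_cf_neg hρ, ← S_cf_neg hPσ]
  apply hJ
  obtain ⟨e, he, he'⟩ := exists_bond (s := s) (t := t) (I := I) hρ hb hne
  refine ⟨e, he, ?_⟩
  have he2 := Finset.mem_Ico.1 he
  have c1 : bd s t (cf (neg ρ p q)) e = bd s t ρ e := by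
    obtain ⟨n, x | i⟩ := e
    · simp only [bd]
      rw [cf_neg hρ he2.1 he2.2.le, cf_neg hρ (by simpa using by omega) (by simpa using he2.2)]
    · simp only [bd]
      rw [cf_neg hρ he2.1 he2.2.le, cf_neg hρ he2.1 he2.2.le]
  have c2 : bd s t (cf (neg σ p q)) e = bd s t σ e := by
    obtain ⟨n, x | i⟩ := e
    · simp only [bd]
      rw [cf_neg hPσ he2.1 he2.2.le, cf_neg hPσ (by simpa using by omega) (by simpa using he2.2)]
    · simp only [bd]
      rw [cf_neg hPσ he2.1 he2.2.le, cf_neg hPσ he2.1 he2.2.le]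
  rw [c1, c2]
  exact he'

end Pool.Agent.TH761.EA
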