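import Pool.Agent.TH761.EA.Shift

/-!
# From finite sums over all bonds to segments, and the global flip
-/

set_option autoImplicit false

open Finset MeasureTheory ProbabilityTheory

namespace Pool.Agent.TH761.EA

variable {V I : Type} [Fintype V] [Fintype I] {s t : I → V}

lemma finsum_eq {J : ℤ × (V ⊕ I) → ℝ} {σ ρ : ℤ × V → ℝ} {p q : ℤ}
    (hb : ∀ n x, n ≤ p ∨ q ≤ n → ρ (n, x) = σ (n, x)) :
    ∑ᶠ e, J e * (bd s t σ e - bd s t ρ e) = S s t J σ p q - S s t J ρ p q := by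
  classical
  rw [finsum_eq_sum_of_support_subset (s := Ico p q ×ˢ (Finset.univ : Finset (V ⊕ I)))]
  · unfold S en
    rw [Finset.sum_product, ← Finset.sum_sub_distrib]
    refine Finset.sum_congr rfl fun n _ => ?_
    rw [← Finset.sum_sub_distrib]
    refine Finset.sum_congr rfl fun c _ => ?_
    ring
  · intro e he
    by_contra hne
    apply he
    have h1 : ¬ (p ≤ e.1 ∧ e.1 < q) := by
      intro h2
      apply hne
      simp [h2.1, h2.2]
    have h2 : bd s t σ e = bd s t ρ e := by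
      obtain ⟨n, x | i⟩ := e
      · simp only [bd]
        simp only at h1
        rw [hb n x (by omega), hb (n + 1) x (by omega)]
      · simp only [bd]
        simp only at h1
        rw [hb n _ (by omega), hb n _ (by omega)]
    simp only [h2, sub_self, mul_zero]

lemma Gr.neg {J : ℤ × (V ⊕ I) → ℝ} {σ : ℤ × V → ℝ} (h : Gr s t J σ) : Gr s t J (-σ) := by
  have hs : ∀ (τ : ℤ × V → ℝ) (p q : ℤ), S s t J (-τ) p q = S s t J τ p q := by
    intro τ p q
    rw [← S_smul τ (Or.inr rfl : (-1 : ℝ) = 1 ∨ (-1 : ℝ) = -1)]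
    congr 1
    funext v
    simp
  have hp : ∀ τ : ℤ × V → ℝ, Pm τ → Pm (-τ) := by
    intro τ hτ v
    rcases hτ v with h1 | h1 <;> simp [h1]
  refine ⟨hp σ h.1, fun p q ρ hρ hb hne => ?_⟩
  rw [hs, ← hs ρ]
  refine h.2 p q (-ρ) (hp ρ hρ) (fun n x hn => ?_) (fun he => hne ?_)
  · rw [Pi.neg_apply, hb n x hn, Pi.neg_apply, neg_neg]
  · rw [← he, neg_neg]

lemma gr_iff {J : ℤ × (V ⊕ I) → ℝ} {σ : ℤ × V → ℝ} :
    Gr s t J σ ↔ (∀ x, σ x = 1 ∨ σ x = -1) ∧ ∀ ρ : ℤ × V → ℝ, (∀ x, ρ x = 1 ∨ ρ x = -1) →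
      {x | ρ x ≠ σ x}.Finite → ρ ≠ σ → 0 < ∑ᶠ e, J e * (bd s t σ e - bd s t ρ e) := by
  classical
  constructor
  · intro h
    refine ⟨h.1, fun ρ hρ hfin hne => ?_⟩
    obtain ⟨F, hF⟩ := hfin.exists_finset
    obtain ⟨q, hq⟩ : ∃ q : ℤ, ∀ v ∈ F, v.1 < q := by
      rcases F.eq_empty_or_nonempty with h0 | h0
      · exact ⟨0, by rw [h0]; simp⟩
      · refine ⟨(F.image Prod.fst).max' (h0.image _) + 1, fun v hv => ?_⟩
        have := Finset.le_max' (F.image Prod.fst) v.1 (Finset.mem_image_of_mem _ hv)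
        omega
    obtain ⟨p, hp⟩ : ∃ p : ℤ, ∀ v ∈ F, p < v.1 := by
      rcases F.eq_empty_or_nonempty with h0 | h0
      · exact ⟨0, by rw [h0]; simp⟩
      · refine ⟨(F.image Prod.fst).min' (h0.image _) - 1, fun v hv => ?_⟩
        have := Finset.min'_le (F.image Prod.fst) v.1 (Finset.mem_image_of_mem _ hv)
        omega
    have hb : ∀ n x, n ≤ p ∨ q ≤ n → ρ (n, x) = σ (n, x) := by
      intro n x hn
      by_contra hc
      have hmem : (n, x) ∈ F := (hF (n, x)).2 hc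
      have h1 := hq _ hmem
      have h2 := hp _ hmem
      simp only at h1 h2
      omega
    rw [finsum_eq hb]
    have := h.2 p q ρ hρ hb hne
    linarith
  · rintro ⟨h1, h2⟩
    refine ⟨h1, fun p q ρ hρ hb hne => ?_⟩
    have hfin : {x | ρ x ≠ σ x}.Finite := by
      refine (Finset.finite_toSet (Icc p q ×ˢ (Finset.univ : Finset V))).subset ?_
      rintro ⟨n, x⟩ hx
      have h3 : ¬ (n ≤ p ∨ q ≤ n) := fun h => hx (hb n x h)
      simp only [Finset.coe_product, Finset.coe_univ, Set.mem_prod, Finset.mem_coe,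
        Finset.mem_Icc, Set.mem_univ, and_true]
      omega
    have := h2 ρ hρ hfin hne
    rw [finsum_eq hb] at this
    linarith

end Pool.Agent.TH761.EA
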