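import Pool.Agent.TH761.EA.Exist

/-!
# Pinning blocks, genericity and the cheapest segment: probabilistic part
-/

set_option autoImplicit false

open Finset MeasureTheory ProbabilityTheory

namespace Pool.Agent.TH761.EA

variable {V I : Type} [Fintype V] [Fintype I] {s t : I → V}

/-! ### Two ranges of values of the couplings -/

lemma two_windows (μ : Measure ℝ) [IsProbabilityMeasure μ] (hat : ∀ x, μ {x} = 0)
    (hsym : μ.map (fun x => -x) = μ) :
    ∃ c N : ℝ, 0 < c ∧ c < N ∧ 0 < μ (Set.Ioo 0 c) ∧ 0 < μ (Set.Ioo c N) := by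
  haveI : NullSingletonClass μ := ⟨hat⟩
  have hpos : 0 < μ (Set.Ioi 0) := by
    rw [pos_iff_ne_zero]
    intro h0
    have h1 : μ (Set.Iio 0) = 0 := by
      rw [← hsym, Measure.map_apply measurable_neg measurableSet_Iio]
      have : (fun x : ℝ => -x) ⁻¹' Set.Iio 0 = Set.Ioi 0 := by ext x; simp
      rw [this, h0]
    have h2 : μ Set.univ ≤ μ (Set.Iio 0) + μ {0} + μ (Set.Ioi 0) := by
      refine (measure_mono (t := Set.Iio 0 ∪ {0} ∪ Set.Ioi 0) ?_).trans
        ((measure_union_le _ _).trans (add_le_add_left (measure_union_le _ _) _))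
      intro x _
      rcases lt_trichotomy x 0 with h | h | h
      · left; left; exact h
      · left; right; exact h
      · right; exact h
    rw [h1, hat, h0, measure_univ] at h2
    simp at h2
  have hN : ∃ N : ℕ, 0 < μ (Set.Ioc 0 (N : ℝ)) := by
    by_contra hcon
    push Not at hcon
    have h1 : μ (⋃ N : ℕ, Set.Ioc 0 (N : ℝ)) = 0 :=
      measure_iUnion_null fun N => le_antisymm (hcon N) bot_le
    have h2 : Set.Ioi (0 : ℝ) ⊆ ⋃ N : ℕ, Set.Ioc 0 (N : ℝ) := by
      intro x hx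
      obtain ⟨N, hN⟩ := exists_nat_ge x
      exact Set.mem_iUnion.2 ⟨N, hx, hN⟩
    exact absurd (measure_mono_null h2 h1) hpos.ne'
  obtain ⟨N, hN⟩ := hN
  have hN0 : (0 : ℝ) < N := by
    by_contra hc
    rw [Set.Ioc_eq_empty hc, measure_empty] at hN
    exact lt_irrefl _ hN
  set g : ℝ → ℝ := fun b => ∫ _ in (0 : ℝ)..b, (1 : ℝ) ∂μ with hg
  have hcont : Continuous g := by
    apply intervalIntegral.continuous_primitive
    intro a b
    exact intervalIntegrable_const
  have hgv : ∀ b, 0 ≤ b → g b = μ.real (Set.Ioc 0 b) := by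
    intro b hb
    simp only [hg]
    rw [intervalIntegral.integral_of_le hb]
    simp
  have hgN : 0 < g N := by
    rw [hgv N hN0.le]
    exact ENNReal.toReal_pos hN.ne' (measure_ne_top _ _)
  have hg0 : g 0 = 0 := by simp [hg]
  obtain ⟨c, hc, hgc⟩ := intermediate_value_Icc hN0.le hcont.continuousOn
    (show g N / 2 ∈ Set.Icc (g 0) (g N) by rw [hg0]; constructor <;> linarith)
  have hc0 : 0 < c := by
    rcases eq_or_lt_of_le hc.1 with h | h
    · rw [← h, hg0] at hgc; linarith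
    · exact h
  have hcN : c < N := by
    rcases eq_or_lt_of_le hc.2 with h | h
    · rw [h] at hgc; linarith
    · exact h
  refine ⟨c, N, hc0, hcN, ?_, ?_⟩
  · rw [pos_iff_ne_zero]
    intro h0
    have h1 : μ (Set.Ioc 0 c) = 0 := by
      rw [← measure_congr (Ioo_ae_eq_Ioc (μ := μ) (a := (0 : ℝ)) (b := c)), h0]
    rw [hgv c hc0.le, Measure.real, h1] at hgc
    simp at hgc
    linarith
  · rw [pos_iff_ne_zero]
    intro h0
    have h1 : μ (Set.Ioc c N) = 0 := by
      rw [← measure_congr (Ioo_ae_eq_Ioc (μ := μ) (a := c) (b := (N : ℝ))), h0]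
    have h2 : g N ≤ g c := by
      rw [hgv N hN0.le, hgv c hc0.le]
      have h3 : Set.Ioc (0 : ℝ) N = Set.Ioc 0 c ∪ Set.Ioc c N :=
        (Set.Ioc_union_Ioc_eq_Ioc hc0.le hcN.le).symm
      rw [h3]
      refine (measureReal_union_le _ _).trans ?_
      simp [Measure.real, h1]
    linarith

/-! ### Pinning blocks -/

/-- the bonds of the block at `z` -/
noncomputable def blk (V I : Type) [Fintype V] [Fintype I] (L : ℕ) (z : ℤ) : Finset (ℤ × (V ⊕ I)) :=
  Icc (z - L) (z + L + 1) ×ˢ Finset.univ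

/-- the range of values of a bond in the block at `z` -/
def win (c N : ℝ) (z : ℤ) (e : ℤ × (V ⊕ I)) : Set ℝ :=
  if e.1 = z ∧ e.2.isLeft then Set.Ioo 0 c else Set.Ioo c N

/-- the block at `z` is pinning -/
def Tr (c N : ℝ) (L : ℕ) (J : ℤ × (V ⊕ I) → ℝ) (z : ℤ) : Prop :=
  ∀ e ∈ blk V I L z, J e ∈ win c N z e

lemma Tr.high {c N : ℝ} {L : ℕ} {J : ℤ × (V ⊕ I) → ℝ} {z : ℤ} (h : Tr c N L J z) {n : ℤ}
    (h1 : z - L ≤ n) (h2 : n ≤ z + L + 1) (h3 : n ≠ z) (b : V ⊕ I) :
    c < J (n, b) ∧ J (n, b) < N := by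
  have := h (n, b) (by simp [blk]; omega)
  unfold win at this
  rw [if_neg (by simp [h3])] at this
  exact this

lemma Tr.low {c N : ℝ} {L : ℕ} {J : ℤ × (V ⊕ I) → ℝ} {z : ℤ} (h : Tr c N L J z) (x : V) :
    0 < J (z, Sum.inl x) ∧ J (z, Sum.inl x) < c := by
  have := h (z, Sum.inl x) (by simp [blk]; omega)
  unfold win at this
  rw [if_pos (by simp)] at this
  exact this

lemma Tr.pos {c N : ℝ} {L : ℕ} {J : ℤ × (V ⊕ I) → ℝ} {z : ℤ} (hc : 0 < c) (h : Tr c N L J z)
    {n : ℤ} (h1 : z - L ≤ n) (h2 : n ≤ z + L + 1) (b : V ⊕ I) : 0 < J (n, b) := by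
  have := h (n, b) (by simp [blk]; omega)
  unfold win at this
  split_ifs at this
  · exact this.1
  · exact hc.trans this.1

/-- In a ground state the column of a pinning block is constant. -/
theorem Tr.uniform {c N : ℝ} {L : ℕ} (hc : 0 < c)
    (hL : 2 * N * Fintype.card V < c * ((L : ℝ) - 1))
    (hH : ∀ f : V → ℝ, (∀ i, f (s i) = f (t i)) → ∀ x y, f x = f y)
    {J : ℤ × (V ⊕ I) → ℝ} {z : ℤ} (h : Tr c N L J z) {σ : ℤ × V → ℝ} (hσ : Gr s t J σ) (x y : V) :
    σ (z, x) = σ (z, y) := by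
  have hN0 : 0 ≤ N := by
    have h1 := h.low x
    have h2 := h.high (n := z + 1) (by omega) (by omega) (by omega) (Sum.inl x)
    linarith [h1.1, h1.2, h2.1, h2.2]
  have hL1 : 1 < L := by
    have h1 : 0 < c * ((L : ℝ) - 1) := lt_of_le_of_lt (by positivity) hL
    have h2 : 0 < (L : ℝ) - 1 := by
      by_contra hh
      have := mul_nonpos_of_nonneg_of_nonpos hc.le (not_lt.1 hh)
      linarith
    have h3 : (1 : ℝ) < L := by linarith
    exact_mod_cast h3
  obtain ⟨p, hp1, hp2, hpu⟩ := exists_uniform hσ hH (p := z - L) (q := z) hc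
    (fun n hn b => h.high (by rw [Finset.mem_Ico] at hn; omega)
      (by rw [Finset.mem_Ico] at hn; omega) (by rw [Finset.mem_Ico] at hn; omega) b)
    (by omega) (by push_cast; linarith [hL, (by ring : c * ((z : ℝ) - (z - L) - 1) =
      c * ((L : ℝ) - 1))])
  obtain ⟨q, hq1, hq2, hqu⟩ := exists_uniform hσ hH (p := z + 1) (q := z + 1 + L) hc
    (fun n hn b => h.high (by rw [Finset.mem_Ico] at hn; omega)
      (by rw [Finset.mem_Ico] at hn; omega) (by rw [Finset.mem_Ico] at hn; omega) b)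
    (by omega) (by push_cast; linarith [hL, (by ring : c * ((z : ℝ) + 1 + L - (z + 1) - 1) =
      c * ((L : ℝ) - 1))])
  have hu := uniform_of_between hσ (p := p) (z := z) (q := q) hp2.le (by omega)
    (u := σ (p, x)) (w := σ (q, x)) (fun y => hpu y x) (fun y => hqu y x)
    (fun n hn b => h.pos hc (by rw [Finset.mem_Ico] at hn; omega)
      (by rw [Finset.mem_Ico] at hn; omega) b)
    (fun n hn hnz y => (h.low y).2.trans (h.high (by rw [Finset.mem_Ico] at hn; omega)
      (by rw [Finset.mem_Ico] at hn; omega) hnz (Sum.inl y)).1)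
  rw [hu x, hu y]

variable (μ : Measure ℝ) [IsProbabilityMeasure μ]

/-- the law of the couplings -/
noncomputable def Law (V I : Type) (μ : Measure ℝ) [IsProbabilityMeasure μ] :
    Measure (ℤ × (V ⊕ I) → ℝ) := Measure.infinitePi fun _ => μ

instance (V I : Type) (μ : Measure ℝ) [IsProbabilityMeasure μ] :
    IsProbabilityMeasure (Law V I μ) := by unfold Law; infer_instance

lemma win_meas (c N : ℝ) (z : ℤ) (e : ℤ × (V ⊕ I)) : MeasurableSet (win c N z e) := by
  unfold win; split_ifs <;> exact measurableSet_Ioo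

lemma Tr_meas (c N : ℝ) (L : ℕ) (z : ℤ) :
    MeasurableSet {J : ℤ × (V ⊕ I) → ℝ | Tr c N L J z} := by
  have : {J : ℤ × (V ⊕ I) → ℝ | Tr c N L J z} =
      ⋂ e ∈ blk V I L z, (fun J : ℤ × (V ⊕ I) → ℝ => J e) ⁻¹' win c N z e := by
    ext J; simp [Tr]
  rw [this]
  exact Finset.measurableSet_biInter _ fun e _ => (measurable_pi_apply e) (win_meas c N z e)

/-- centre of the block containing a bond -/
def ctr (L : ℕ) (e : ℤ × (V ⊕ I)) : ℤ := (e.1 + L) / (2 * L + 2)

lemma ctr_eq (L : ℕ) (k : ℤ) {e : ℤ × (V ⊕ I)} (he : e ∈ blk V I L (k * (2 * L + 2))) :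
    ctr L e = k := by
  unfold blk at he
  rw [Finset.mem_product, Finset.mem_Icc] at he
  unfold ctr
  have h1 : e.1 + L = (e.1 + L - k * (2 * L + 2)) + k * (2 * L + 2) := by ring
  rw [h1, Int.add_mul_ediv_right _ _ (by omega), Int.ediv_eq_zero_of_lt (by omega) (by omega)]
  ring

lemma indep (c N : ℝ) (L : ℕ) (κ : ℕ → ℤ) (hκ : Function.Injective κ) :
    iIndepSet (fun k => {J : ℤ × (V ⊕ I) → ℝ | Tr c N L J (κ k * (2 * L + 2))}) (Law V I μ) := by
  classical
  rw [iIndepSet_iff_meas_biInter (fun k => Tr_meas c N L _)]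
  intro S
  have hset : ∀ k, {J : ℤ × (V ⊕ I) → ℝ | Tr c N L J (κ k * (2 * L + 2))} =
      Set.pi (blk V I L (κ k * (2 * L + 2)) : Set (ℤ × (V ⊕ I)))
        (fun e => win c N (ctr L e * (2 * L + 2)) e) := by
    intro k
    ext J
    simp only [Set.mem_setOf_eq, Set.mem_pi, Finset.mem_coe, Tr]
    refine forall₂_congr fun e he => ?_
    rw [ctr_eq L _ he]
  have hinter : (⋂ k ∈ S, {J : ℤ × (V ⊕ I) → ℝ | Tr c N L J (κ k * (2 * L + 2))}) =
      Set.pi ((S.biUnion fun k => blk V I L (κ k * (2 * L + 2)) : Finset _) : Set (ℤ × (V ⊕ I)))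
        (fun e => win c N (ctr L e * (2 * L + 2)) e) := by
    ext J
    simp only [Set.mem_iInter, hset, Set.mem_pi, Finset.coe_biUnion, Set.mem_iUnion,
      Finset.mem_coe]
    constructor
    · rintro h e ⟨k, hk, he⟩
      exact h k hk e he
    · intro h k hk e he
      exact h e ⟨k, hk, he⟩
  rw [hinter]
  unfold Law
  rw [Measure.infinitePi_pi _ (fun e _ => win_meas c N _ e), Finset.prod_biUnion]
  · refine Finset.prod_congr rfl fun k _ => ?_
    rw [hset, Measure.infinitePi_pi _ (fun e _ => win_meas c N _ e)]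
  · intro k _ k' _ hkk'
    rw [Function.onFun, Finset.disjoint_left]
    intro e he he'
    exact hkk' (hκ ((ctr_eq L _ he).symm.trans (ctr_eq L _ he')))

lemma often {c N : ℝ} (h0 : 0 < μ (Set.Ioo 0 c)) (h1 : 0 < μ (Set.Ioo c N)) (L : ℕ) (κ : ℕ → ℤ)
    (hκ : Function.Injective κ) :
    ∀ᵐ J ∂(Law V I μ), ∃ᶠ k in Filter.atTop, Tr c N L J (κ k * (2 * L + 2)) := by
  have hδ : ∀ z, (min (μ (Set.Ioo 0 c)) (μ (Set.Ioo c N))) ^
      ((2 * L + 2) * Fintype.card (V ⊕ I)) ≤ Law V I μ {J : ℤ × (V ⊕ I) → ℝ | Tr c N L J z} := by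
    intro z
    have hset : {J : ℤ × (V ⊕ I) → ℝ | Tr c N L J z} =
        Set.pi (blk V I L z : Set (ℤ × (V ⊕ I))) (fun e => win c N z e) := by
      ext J
      simp only [Set.mem_setOf_eq, Set.mem_pi, Finset.mem_coe, Tr]
    rw [hset]
    unfold Law
    rw [Measure.infinitePi_pi _ (fun e _ => win_meas c N _ e)]
    have hcard : (blk V I L z).card = (2 * L + 2) * Fintype.card (V ⊕ I) := by
      unfold blk
      rw [Finset.card_product, Int.card_Icc, Finset.card_univ]
      congr 1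
      omega
    rw [← hcard]
    refine Finset.pow_card_le_prod _ _ _ fun e _ => ?_
    unfold win
    split_ifs
    · exact min_le_left _ _
    · exact min_le_right _ _
  have hlim := measure_limsup_eq_one (μ := Law V I μ)
    (s := fun k => {J : ℤ × (V ⊕ I) → ℝ | Tr c N L J (κ k * (2 * L + 2))})
    (fun k => Tr_meas c N L _) (indep μ c N L κ hκ) (by
      rw [eq_top_iff]
      refine le_trans ?_ (ENNReal.tsum_le_tsum fun k => hδ (κ k * (2 * L + 2)))
      rw [ENNReal.tsum_const_eq_top_of_ne_zero]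
      exact pow_ne_zero _ (lt_min h0 h1).ne')
  have h2 : ∀ᵐ J ∂(Law V I μ), J ∈ Filter.limsup
      (fun k => {J : ℤ × (V ⊕ I) → ℝ | Tr c N L J (κ k * (2 * L + 2))}) Filter.atTop := by
    rw [← prob_compl_eq_zero_iff₀] at hlim
    · exact hlim
    · exact (MeasurableSet.measurableSet_limsup fun k => Tr_meas c N L _).nullMeasurableSet
  filter_upwards [h2] with J hJ
  rw [Filter.limsup_eq_iInf_iSup_of_nat] at hJ
  rw [Filter.frequently_atTop]
  intro a
  simp only [Set.iInf_eq_iInter, Set.iSup_eq_iUnion, Set.mem_iInter, Set.mem_iUnion] at hJ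
  obtain ⟨b, hb, hJb⟩ := hJ a
  exact ⟨b, hb, hJb⟩

end Pool.Agent.TH761.EA
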