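import Pool.Agent.TH761.EA.Det

/-!
# Optimal values on segments, and the two-segment inequality
-/

set_option autoImplicit false

open Finset

namespace Pool.Agent.TH761.EA

variable {V I : Type} [Fintype V] [Fintype I] {s t : I → V}

open Classical in
/-- the configuration which is `-1` exactly on `A` -/
noncomputable def cf (A : Finset (ℤ × V)) : ℤ × V → ℝ := fun v => if v ∈ A then -1 else 1

lemma cf_pm (A : Finset (ℤ × V)) : Pm (cf A) := by
  intro v; unfold cf; split_ifs <;> simp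

/-- column `p` is `1`, column `q` is `r` -/
def Adm (p q : ℤ) (r : ℝ) (A : Finset (ℤ × V)) : Prop :=
  (∀ x, cf A (p, x) = 1) ∧ ∀ x, cf A (q, x) = r

/-- the optimal value on the segment -/
noncomputable def M (s t : I → V) (J : ℤ × (V ⊕ I) → ℝ) (p q : ℤ) (r : ℝ) : ℝ :=
  ⨆ A : {A : Finset (ℤ × V) // Adm p q r A}, S s t J (cf A.1) p q

open Classical in
/-- the sites of the columns `[p, q]` at which `ρ` is `-1` -/
noncomputable def neg (ρ : ℤ × V → ℝ) (p q : ℤ) : Finset (ℤ × V) :=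
  (Icc p q ×ˢ (Finset.univ : Finset V)).filter (fun v => ρ v = -1)

lemma cf_neg {ρ : ℤ × V → ℝ} (h : Pm ρ) {p q n : ℤ} (hp : p ≤ n) (hq : n ≤ q) (x : V) :
    cf (neg ρ p q) (n, x) = ρ (n, x) := by
  unfold cf neg
  rcases h (n, x) with h1 | h1
  · rw [if_neg, h1]
    simp only [Finset.mem_filter, not_and]
    intro _ h2; rw [h1] at h2; norm_num at h2
  · rw [if_pos, h1]
    simp [hp, hq, h1]

lemma S_cf_neg {J : ℤ × (V ⊕ I) → ℝ} {ρ : ℤ × V → ℝ} (h : Pm ρ) (p q : ℤ) :
    S s t J (cf (neg ρ p q)) p q = S s t J ρ p q :=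
  S_congr fun _ x hp hq => cf_neg h hp hq x

lemma S_bdd (J : ℤ × (V ⊕ I) → ℝ) (p q : ℤ) (r : ℝ) :
    BddAbove (Set.range fun A : {A : Finset (ℤ × V) // Adm p q r A} => S s t J (cf A.1) p q) := by
  refine ⟨∑ n ∈ Ico p q, ∑ c, |J (n, c)|, ?_⟩
  rintro _ ⟨A, rfl⟩
  refine Finset.sum_le_sum fun n _ => Finset.sum_le_sum fun c _ => ?_
  rcases bd_pm (s := s) (t := t) (cf_pm A.1) (n, c) with h | h <;> rw [h]
  · rw [mul_one]; exact le_abs_self _
  · rw [mul_neg_one]; exact neg_le_abs _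

lemma le_M {J : ℤ × (V ⊕ I) → ℝ} {ρ : ℤ × V → ℝ} (h : Pm ρ) {p q : ℤ} (hpq : p ≤ q) {r : ℝ}
    (hp : ∀ x, ρ (p, x) = 1) (hq : ∀ x, ρ (q, x) = r) : S s t J ρ p q ≤ M s t J p q r := by
  have hA : Adm p q r (neg ρ p q) :=
    ⟨fun x => by rw [cf_neg h le_rfl hpq]; exact hp x,
      fun x => by rw [cf_neg h hpq le_rfl]; exact hq x⟩
  rw [← S_cf_neg h]
  exact le_ciSup (S_bdd (s := s) (t := t) J p q r) ⟨_, hA⟩

lemma exists_M {J : ℤ × (V ⊕ I) → ℝ} {p q : ℤ} (hpq : p < q) {r : ℝ} (hr : r = 1 ∨ r = -1) :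
    ∃ ρ : ℤ × V → ℝ, Pm ρ ∧ (∀ x, ρ (p, x) = 1) ∧ (∀ x, ρ (q, x) = r) ∧
      S s t J ρ p q = M s t J p q r := by
  classical
  set F : Finset (Finset (ℤ × V)) :=
    ((Icc p q ×ˢ (Finset.univ : Finset V)).powerset).filter (fun A => Adm p q r A) with hF
  have hne : F.Nonempty := by
    set ρ0 : ℤ × V → ℝ := fun v => if v.1 = q then r else 1 with hρ0
    have hP : Pm ρ0 := by
      intro v; simp only [hρ0]; split_ifs
      · exact hr
      · left; rfl
    refine ⟨neg ρ0 p q, ?_⟩
    rw [hF, Finset.mem_filter, Finset.mem_powerset]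
    refine ⟨Finset.filter_subset _ _, fun x => ?_, fun x => ?_⟩
    · rw [cf_neg hP le_rfl hpq.le]; simp [hρ0, hpq.ne]
    · rw [cf_neg hP hpq.le le_rfl]; simp [hρ0]
  obtain ⟨A0, hA0, hmax⟩ := Finset.exists_max_image F (fun A => S s t J (cf A) p q) hne
  have hA0' := (Finset.mem_filter.1 hA0).2
  refine ⟨cf A0, cf_pm A0, hA0'.1, hA0'.2, le_antisymm ?_ ?_⟩
  · exact le_ciSup (S_bdd (s := s) (t := t) J p q r) ⟨A0, hA0'⟩
  · haveI : Nonempty {A : Finset (ℤ × V) // Adm p q r A} := ⟨⟨A0, hA0'⟩⟩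
    refine ciSup_le ?_
    rintro ⟨A, hA⟩
    rw [← S_cf_neg (cf_pm A)]
    refine hmax _ ?_
    rw [hF, Finset.mem_filter, Finset.mem_powerset]
    refine ⟨Finset.filter_subset _ _, fun x => ?_, fun x => ?_⟩
    · rw [cf_neg (cf_pm A) le_rfl hpq.le]; exact hA.1 x
    · rw [cf_neg (cf_pm A) hpq.le le_rfl]; exact hA.2 x

lemma sq_one {a : ℝ} (h : a = 1 ∨ a = -1) : a * a = 1 := by
  rcases h with h | h <;> simp [h]

lemma mul_pm {a b : ℝ} (h : a = 1 ∨ a = -1) (h' : b = 1 ∨ b = -1) : a * b = 1 ∨ a * b = -1 := by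
  rcases h with h | h <;> rcases h' with h' | h' <;> simp [h, h']

/-- a ground state is optimal between two uniform columns -/
lemma Gr.seg {J : ℤ × (V ⊕ I) → ℝ} {σ : ℤ × V → ℝ} (h : Gr s t J σ) {p q : ℤ} (hpq : p < q)
    {u w : ℝ} (hu1 : u = 1 ∨ u = -1) (hw1 : w = 1 ∨ w = -1) (hu : ∀ x, σ (p, x) = u)
    (hw : ∀ x, σ (q, x) = w) : S s t J σ p q = M s t J p q (u * w) := by
  have huu := sq_one hu1
  apply le_antisymm
  · rw [← S_smul σ hu1]
    refine le_M (Pm_smul h.1 hu1) hpq.le (fun x => ?_) (fun x => ?_)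
    · simp only [hu]; exact huu
    · simp only [hw]
  · obtain ⟨ρ, hρ, hρp, hρq, hρS⟩ := exists_M (s := s) (t := t) (J := J) (V := V) hpq
      (mul_pm hu1 hw1)
    rw [← hρS, ← S_smul ρ hu1]
    set ρ' : ℤ × V → ℝ := fun v => if p < v.1 ∧ v.1 < q then u * ρ v else σ v with hρ'
    have h1 : S s t J (fun v => u * ρ v) p q = S s t J ρ' p q := by
      refine S_congr fun n x hn hn' => ?_
      simp only [hρ']
      split_ifs with hc
      · rfl
      · rcases eq_or_lt_of_le hn with h2 | h2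
        · subst h2; rw [hρp, hu, mul_one]
        · have : n = q := by omega
          subst this; rw [hρq, hw, ← mul_assoc, huu, one_mul]
    rw [h1]
    refine h.le (fun v => ?_) (fun n x hn => ?_)
    · simp only [hρ']; split_ifs
      · exact Pm_smul hρ hu1 v
      · exact h.1 v
    · have : ¬ (p < n ∧ n < q) := by omega
      simp [hρ', this]

/-- **Two segments.** Reversing the relative signs of a ground state on two segments costs
energy. -/
lemma Gr.two [Nonempty V] {J : ℤ × (V ⊕ I) → ℝ} {σ : ℤ × V → ℝ} (h : Gr s t J σ) {p q p' q' : ℤ}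
    (hpq : p < q) (hqp : q ≤ p') (hpq' : p' < q') {u w u' w' : ℝ} (hu1 : u = 1 ∨ u = -1)
    (hw1 : w = 1 ∨ w = -1) (hu1' : u' = 1 ∨ u' = -1) (hw1' : w' = 1 ∨ w' = -1)
    (hu : ∀ x, σ (p, x) = u) (hw : ∀ x, σ (q, x) = w) (hu' : ∀ x, σ (p', x) = u')
    (hw' : ∀ x, σ (q', x) = w') :
    M s t J p q (-(u * w)) + M s t J p' q' (-(u' * w')) <
      M s t J p q (u * w) + M s t J p' q' (u' * w') := by
  have neg_pm : ∀ {a : ℝ}, a = 1 ∨ a = -1 → -a = 1 ∨ -a = -1 := by
    rintro a (h | h) <;> simp [h]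
  obtain ⟨ρ, hρ, hρp, hρq, hρS⟩ := exists_M (s := s) (t := t) (J := J) (V := V) hpq
    (neg_pm (mul_pm hu1 hw1))
  obtain ⟨τ, hτ, hτp, hτq, hτS⟩ := exists_M (s := s) (t := t) (J := J) (V := V) hpq'
    (neg_pm (mul_pm hu1' hw1'))
  have huu := sq_one hu1
  have huu' := sq_one hu1'
  set ξ : ℤ × V → ℝ := fun v => if v.1 ≤ p then σ v else if v.1 < q then u * ρ v else
    if v.1 ≤ p' then -1 * σ v else if v.1 < q' then -u' * τ v else σ v with hξ
  have hPξ : Pm ξ := by
    intro v
    simp only [hξ]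
    split_ifs
    · exact h.1 v
    · exact Pm_smul hρ hu1 v
    · exact Pm_smul h.1 (Or.inr rfl) v
    · exact Pm_smul hτ (neg_pm hu1') v
    · exact h.1 v
  have hbξ : ∀ n x, n ≤ p ∨ q' ≤ n → ξ (n, x) = σ (n, x) := by
    intro n x hn
    rcases hn with hn | hn
    · simp [hξ, hn]
    · have h1 : ¬ n ≤ p := by omega
      have h2 : ¬ n < q := by omega
      have h3 : ¬ n ≤ p' := by omega
      have h4 : ¬ n < q' := by omega
      simp [hξ, h1, h2, h3, h4]
  have hne : ξ ≠ σ := by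
    intro he
    obtain ⟨x⟩ := ‹Nonempty V›
    have h1 := congrFun he (q, x)
    have h2 : ¬ q ≤ p := by omega
    simp only [hξ, h2, lt_irrefl, if_false, hqp, if_true, hw] at h1
    rcases hw1 with h3 | h3 <;> rw [h3] at h1 <;> norm_num at h1
  have hlt := h.2 p q' ξ hPξ hbξ hne
  rw [S_add ξ (by omega : p ≤ q) (by omega : q ≤ q'), S_add ξ hqp hpq'.le,
    S_add σ (by omega : p ≤ q) (by omega : q ≤ q'), S_add σ hqp hpq'.le] at hlt
  have e1 : S s t J ξ p q = M s t J p q (-(u * w)) := by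
    rw [← hρS, ← S_smul ρ hu1]
    refine S_congr fun n x hn hn' => ?_
    simp only [hξ]
    rcases eq_or_lt_of_le hn with h2 | h2
    · subst h2; simp [hρp, hu]
    · have h3 : ¬ n ≤ p := by omega
      rcases eq_or_lt_of_le hn' with h4 | h4
      · subst h4
        simp only [h3, lt_irrefl, if_false, hqp, if_true, hw, hρq]
        linear_combination w * huu
      · simp [h3, h4]
  have e2 : S s t J ξ q p' = S s t J σ q p' := by
    rw [← S_smul σ (Or.inr rfl : (-1 : ℝ) = 1 ∨ (-1 : ℝ) = -1)]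
    refine S_congr fun n x hn hn' => ?_
    have h1 : ¬ n ≤ p := by omega
    have h2 : ¬ n < q := by omega
    simp [hξ, h1, h2, hn']
  have e3 : S s t J ξ p' q' = M s t J p' q' (-(u' * w')) := by
    rw [← hτS, ← S_smul τ (neg_pm hu1')]
    refine S_congr fun n x hn hn' => ?_
    have h1 : ¬ n ≤ p := by omega
    have h2 : ¬ n < q := by omega
    simp only [hξ, h1, h2, if_false]
    rcases eq_or_lt_of_le hn with h3 | h3
    · subst h3
      simp only [le_refl, if_true, hu', hτp]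
      ring
    · have h4 : ¬ n ≤ p' := by omega
      simp only [h4, if_false]
      split_ifs with h5
      · rfl
      · have h6 : n = q' := by omega
        subst h6
        rw [hw', hτq]
        linear_combination (-w') * huu'
  have e4 := h.seg hpq hu1 hw1 hu hw
  have e5 := h.seg hpq' hu1' hw1' hu' hw'
  rw [e1, e2, e3, e4, e5] at hlt
  linarith

/-- difference of the two optimal values -/
noncomputable def D (s t : I → V) (J : ℤ × (V ⊕ I) → ℝ) (p q : ℤ) : ℝ :=
  M s t J p q 1 - M s t J p q (-1)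

lemma D_eta {J : ℤ × (V ⊕ I) → ℝ} {p q : ℤ} {r : ℝ} (hr : r = 1 ∨ r = -1) :
    M s t J p q r - M s t J p q (-r) = r * D s t J p q := by
  unfold D
  rcases hr with h | h <;> rw [h]
  · ring
  · rw [neg_neg]; ring

/-- **Uniqueness.** If every ground state is constant on the columns in `T`, if `T` is unbounded in
both directions, and if no segment between consecutive members of `T` is strictly cheapest, then
two ground states agree up to the global sign. -/
theorem unique [Nonempty V] {J : ℤ × (V ⊕ I) → ℝ} {T : ℤ → Prop}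
    (hT : ∀ z, T z → ∀ σ : ℤ × V → ℝ, Gr s t J σ → ∀ x y, σ (z, x) = σ (z, y))
    (hr : ∀ N : ℤ, ∃ z, N < z ∧ T z) (hl : ∀ N : ℤ, ∃ z, z < N ∧ T z)
    (hmin : ¬ ∃ z q, T z ∧ z < q ∧ T q ∧ (∀ m, z < m → m < q → ¬ T m) ∧
      ∀ p' q', T p' → T q' → p' < q' → (q' ≤ z ∨ q ≤ p') →
        |D s t J z q| < |D s t J p' q'|)
    {σ τ : ℤ × V → ℝ} (hσ : Gr s t J σ) (hτ : Gr s t J τ) : τ = σ ∨ τ = -σ := by
  classical
  obtain ⟨x0⟩ := ‹Nonempty V›
  haveI : Nonempty V := ⟨x0⟩
  -- a ground state with a non-optimal relative sign gives a strictly cheapest segment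
  have step : ∀ ρ : ℤ × V → ℝ, Gr s t J ρ → ∀ z q, T z → T q → z < q →
      (∀ m, z < m → m < q → ¬ T m) → 0 < ρ (z, x0) * ρ (q, x0) * D s t J z q := by
    intro ρ hρ z q hz hq hzq hcon
    by_contra hneg
    push Not at hneg
    refine hmin ⟨z, q, hz, hzq, hq, hcon, fun p' q' hp' hq' hpq' hdis => ?_⟩
    have hu : ∀ m, T m → ∀ x, ρ (m, x) = ρ (m, x0) := fun m hm x => hT m hm ρ hρ x x0
    have key : 0 < ρ (z, x0) * ρ (q, x0) * D s t J z q +
        ρ (p', x0) * ρ (q', x0) * D s t J p' q' := by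
      rw [← D_eta (mul_pm (hρ.1 (z, x0)) (hρ.1 (q, x0))),
        ← D_eta (mul_pm (hρ.1 (p', x0)) (hρ.1 (q', x0)))]
      rcases hdis with hd | hd
      · have := hρ.two hpq' hd hzq (hρ.1 _) (hρ.1 _) (hρ.1 _) (hρ.1 _) (hu p' hp') (hu q' hq')
          (hu z hz) (hu q hq)
        linarith
      · have := hρ.two hzq hd hpq' (hρ.1 _) (hρ.1 _) (hρ.1 _) (hρ.1 _) (hu z hz) (hu q hq)
          (hu p' hp') (hu q' hq')
        linarith
    have h1 : |D s t J z q| = -(ρ (z, x0) * ρ (q, x0) * D s t J z q) := by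
      rw [← abs_of_nonpos hneg, abs_mul]
      rcases mul_pm (hρ.1 (z, x0)) (hρ.1 (q, x0)) with h | h <;> rw [h] <;> simp
    have h2 : ρ (p', x0) * ρ (q', x0) * D s t J p' q' ≤ |D s t J p' q'| := by
      refine (le_abs_self _).trans ?_
      rw [abs_mul]
      rcases mul_pm (hρ.1 (p', x0)) (hρ.1 (q', x0)) with h | h <;> rw [h] <;> simp
    rw [h1]; linarith
  -- relative sign of the two ground states
  have hcons : ∀ z q, T z → T q → z < q → (∀ m, z < m → m < q → ¬ T m) →
      σ (z, x0) * τ (z, x0) = σ (q, x0) * τ (q, x0) := by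
    intro z q hz hq hzq hcon
    have h1 := step σ hσ z q hz hq hzq hcon
    have h2 := step τ hτ z q hz hq hzq hcon
    by_contra hne
    rcases hσ.1 (z, x0) with a | a <;> rcases hσ.1 (q, x0) with b | b <;>
      rcases hτ.1 (z, x0) with c | c <;> rcases hτ.1 (q, x0) with d | d <;>
      simp only [a, b, c, d] at h1 h2 hne <;> first | linarith | exact hne (by norm_num)
  have hconst : ∀ k : ℕ, ∀ z q, T z → T q → z < q → q - z ≤ k →
      σ (z, x0) * τ (z, x0) = σ (q, x0) * τ (q, x0) := by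
    intro k
    induction k with
    | zero => intro z q _ _ h1 h2; push_cast at h2; omega
    | succ k ih =>
      intro z q hz hq hzq hk
      by_cases hcon : ∀ m, z < m → m < q → ¬ T m
      · exact hcons z q hz hq hzq hcon
      · push Not at hcon
        obtain ⟨m, hm1, hm2, hm⟩ := hcon
        push_cast at hk
        rw [ih z m hz hm hm1 (by omega), ih m q hm hq hm2 (by omega)]
  obtain ⟨z0, -, hz0⟩ := hr 0
  set r : ℝ := σ (z0, x0) * τ (z0, x0) with hrdef
  have hr1 : r = 1 ∨ r = -1 := mul_pm (hσ.1 _) (hτ.1 _)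
  have hrz : ∀ z, T z → ∀ x, σ (z, x) = r * τ (z, x) := by
    intro z hz x
    have h1 : σ (z, x0) * τ (z, x0) = r := by
      rcases lt_trichotomy z z0 with h | h | h
      · exact hconst (z0 - z).toNat z z0 hz hz0 h (by omega)
      · rw [h]
      · exact (hconst (z - z0).toNat z0 z hz0 hz h (by omega)).symm
    rw [hT z hz σ hσ x x0, hT z hz τ hτ x x0, ← h1, mul_assoc, sq_one (hτ.1 _), mul_one]
  have hall : ∀ v, σ v = r * τ v := by
    rintro ⟨n, x⟩
    obtain ⟨q, hnq, hq⟩ := hr n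
    obtain ⟨p, hpn, hp⟩ := hl n
    have hpq : p < q := by omega
    set ρ : ℤ × V → ℝ := fun v => if v.1 ≤ p ∨ q ≤ v.1 then σ v else r * τ v with hρ
    set ρ' : ℤ × V → ℝ := fun v => if v.1 ≤ p ∨ q ≤ v.1 then τ v else r * σ v with hρ'
    have hPρ : Pm ρ := by
      intro v; simp only [hρ]; split_ifs
      · exact hσ.1 v
      · exact Pm_smul hτ.1 hr1 v
    have hPρ' : Pm ρ' := by
      intro v; simp only [hρ']; split_ifs
      · exact hτ.1 v
      · exact Pm_smul hσ.1 hr1 v
    have hrr := sq_one hr1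
    have e1 : S s t J ρ p q = S s t J τ p q := by
      rw [← S_smul τ hr1]
      refine S_congr fun m y hm hm' => ?_
      simp only [hρ]
      split_ifs with hc
      · rcases hc with hc | hc
        · have : m = p := by omega
          subst this; exact hrz m hp y
        · have : m = q := by omega
          subst this; exact hrz m hq y
      · rfl
    have e2 : S s t J ρ' p q = S s t J σ p q := by
      rw [← S_smul σ hr1]
      refine S_congr fun m y hm hm' => ?_
      simp only [hρ']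
      split_ifs with hc
      · have h0 : ∀ m, T m → τ (m, y) = r * σ (m, y) := by
          intro m hm
          rw [hrz m hm y, ← mul_assoc, hrr, one_mul]
        rcases hc with hc | hc
        · have : m = p := by omega
          subst this; exact h0 m hp
        · have : m = q := by omega
          subst this; exact h0 m hq
      · rfl
    have hb1 : ∀ m y, m ≤ p ∨ q ≤ m → ρ (m, y) = σ (m, y) := by
      intro m y hm; simp [hρ, hm]
    have hb2 : ∀ m y, m ≤ p ∨ q ≤ m → ρ' (m, y) = τ (m, y) := by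
      intro m y hm; simp [hρ', hm]
    by_contra hne
    have hin : ¬ (n ≤ p ∨ q ≤ n) := by omega
    have n1 : ρ ≠ σ := by
      intro he
      have := congrFun he (n, x)
      simp only [hρ, hin, if_false] at this
      exact hne this.symm
    have n2 : ρ' ≠ τ := by
      intro he
      have := congrFun he (n, x)
      simp only [hρ', hin, if_false] at this
      apply hne
      rw [← this, ← mul_assoc, hrr, one_mul]
    have l1 := hσ.2 p q ρ hPρ hb1 n1
    have l2 := hτ.2 p q ρ' hPρ' hb2 n2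
    rw [e1] at l1
    rw [e2] at l2
    exact absurd l1 (not_lt.2 l2.le)
  rcases hr1 with h | h
  · left; funext v; rw [hall v, h, one_mul]
  · right; funext v
    rw [Pi.neg_apply, hall v, h]; ring

end Pool.Agent.TH761.EA
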