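import Pool.Agent.TH761.EA.Prob

/-!
# No segment is strictly cheapest; genericity; the theorem
-/

set_option autoImplicit false

open Finset MeasureTheory ProbabilityTheory

namespace Pool.Agent.TH761.EA

variable {V I : Type} [Fintype V] [Fintype I] {s t : I → V}

/-! ### Measurability -/

lemma S_meas (σ : ℤ × V → ℝ) (p q : ℤ) :
    Measurable fun J : ℤ × (V ⊕ I) → ℝ => S s t J σ p q := by
  unfold S en
  fun_prop

lemma M_meas (p q : ℤ) (r : ℝ) :
    Measurable fun J : ℤ × (V ⊕ I) → ℝ => M s t J p q r := by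
  unfold M
  haveI : Countable {A : Finset (ℤ × V) // Adm p q r A} := Subtype.countable
  exact Measurable.iSup fun A => S_meas _ p q

lemma D_meas (p q : ℤ) : Measurable fun J : ℤ × (V ⊕ I) → ℝ => D s t J p q := by
  unfold D
  exact (M_meas p q 1).sub (M_meas p q (-1))

/-! ### The shift -/

/-- shift of the couplings -/
def sh (J : ℤ × (V ⊕ I) → ℝ) : ℤ × (V ⊕ I) → ℝ := fun e => J (e.1 + 1, e.2)

lemma sh_meas : Measurable (sh : (ℤ × (V ⊕ I) → ℝ) → ℤ × (V ⊕ I) → ℝ) := by
  unfold sh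
  fun_prop

lemma sh_law (μ : Measure ℝ) [IsProbabilityMeasure μ] :
    (Law V I μ).map sh = Law V I μ := by
  unfold Law sh
  have hinj : Function.Injective (fun e : ℤ × (V ⊕ I) => ((e.1 + 1, e.2) : ℤ × (V ⊕ I))) := by
    intro e e' h
    simp only [Prod.mk.injEq, add_left_inj] at h
    exact Prod.ext h.1 h.2
  exact Measure.map_infinitePi_infinitePi_of_inj (P := fun _ => μ) hinj

lemma S_sh (J : ℤ × (V ⊕ I) → ℝ) (σ : ℤ × V → ℝ) (p q : ℤ) :
    S s t J (fun v => σ (v.1 - 1, v.2)) (p + 1) (q + 1) = S s t (sh J) σ p q := by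
  unfold S
  rw [← Finset.map_add_right_Ico p q 1, Finset.sum_map]
  refine Finset.sum_congr rfl fun n _ => ?_
  unfold en
  refine Finset.sum_congr rfl fun c _ => ?_
  simp only [addRightEmbedding_apply]
  obtain x | i := c
  · simp only [bd, sh]
    rw [add_sub_cancel_right, show n + 1 + 1 - 1 = n + 1 by ring]
  · simp only [bd, sh, add_sub_cancel_right]

lemma M_sh (J : ℤ × (V ⊕ I) → ℝ) {p q : ℤ} (hpq : p < q) {r : ℝ} (hr : r = 1 ∨ r = -1) :
    M s t (sh J) p q r = M s t J (p + 1) (q + 1) r := by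
  apply le_antisymm
  · obtain ⟨ρ, hρ, hp, hq, hS⟩ := exists_M (s := s) (t := t) (J := sh J) hpq hr
    rw [← hS, ← S_sh]
    refine le_M (fun v => hρ _) (by omega) (fun x => ?_) (fun x => ?_)
    · simp only [add_sub_cancel_right]; exact hp x
    · simp only [add_sub_cancel_right]; exact hq x
  · obtain ⟨ρ, hρ, hp, hq, hS⟩ := exists_M (s := s) (t := t) (J := J)
      (show p + 1 < q + 1 by omega) hr
    have e : (fun v : ℤ × V => (fun v : ℤ × V => ρ (v.1 + 1, v.2)) (v.1 - 1, v.2)) = ρ := by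
      funext v
      simp
    have e2 := S_sh (s := s) (t := t) J (fun v => ρ (v.1 + 1, v.2)) p q
    rw [e] at e2
    rw [← hS, e2]
    exact le_M (fun v => hρ _) hpq.le hp hq

lemma D_sh (J : ℤ × (V ⊕ I) → ℝ) {p q : ℤ} (hpq : p < q) :
    D s t (sh J) p q = D s t J (p + 1) (q + 1) := by
  unfold D
  rw [M_sh J hpq (Or.inl rfl), M_sh J hpq (Or.inr rfl)]

lemma Tr_sh (c N : ℝ) (L : ℕ) (J : ℤ × (V ⊕ I) → ℝ) (z : ℤ) :
    Tr c N L (sh J) z ↔ Tr c N L J (z + 1) := by
  have hw : ∀ (n : ℤ) (b : V ⊕ I), win c N z (n, b) = win c N (z + 1) (n + 1, b) := by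
    intro n b
    simp [win]
  constructor
  · intro h e he
    have h1 := h (e.1 - 1, e.2) (by
      simp only [blk, Finset.mem_product, Finset.mem_Icc, Finset.mem_univ, and_true] at he ⊢
      omega)
    rw [hw] at h1
    simpa [sh] using h1
  · intro h e he
    have h1 := h (e.1 + 1, e.2) (by
      simp only [blk, Finset.mem_product, Finset.mem_Icc, Finset.mem_univ, and_true] at he ⊢
      omega)
    rw [← hw] at h1
    exact h1

/-- the segment from `z` to the next pinning block is strictly cheapest -/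
def Ev (s t : I → V) (c N : ℝ) (L : ℕ) (J : ℤ × (V ⊕ I) → ℝ) (z : ℤ) : Prop :=
  Tr c N L J z ∧ ∃ q, z < q ∧ Tr c N L J q ∧ (∀ m, z < m → m < q → ¬ Tr c N L J m) ∧
    ∀ p' q', Tr c N L J p' → Tr c N L J q' → p' < q' → (q' ≤ z ∨ q ≤ p') →
      |D s t J z q| < |D s t J p' q'|

lemma Ev_meas (c N : ℝ) (L : ℕ) (z : ℤ) :
    MeasurableSet {J : ℤ × (V ⊕ I) → ℝ | Ev s t c N L J z} := by
  have hT : ∀ z, Measurable fun J : ℤ × (V ⊕ I) → ℝ => Tr c N L J z :=
    fun z => measurableSet_setOf.1 (Tr_meas c N L z)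
  have hD : ∀ z q p' q', Measurable fun J : ℤ × (V ⊕ I) → ℝ =>
      |D s t J z q| < |D s t J p' q'| := fun z q p' q' =>
    measurableSet_setOf.1 (measurableSet_lt (D_meas z q).abs (D_meas p' q').abs)
  apply measurableSet_setOf.2
  unfold Ev
  refine (hT z).and (Measurable.exists fun q => measurable_const.and ((hT q).and
    (Measurable.and (Measurable.forall fun m => measurable_const.imp
      (measurable_const.imp (hT m).not)) ?_)))
  exact Measurable.forall fun p' => Measurable.forall fun q' => (hT p').imp ((hT q').imp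
    (measurable_const.imp (measurable_const.imp (hD _ _ _ _))))

lemma Ev_sh (c N : ℝ) (L : ℕ) (J : ℤ × (V ⊕ I) → ℝ) (z : ℤ) :
    Ev s t c N L (sh J) z ↔ Ev s t c N L J (z + 1) := by
  unfold Ev
  rw [Tr_sh]
  refine and_congr_right fun _ => ?_
  constructor
  · rintro ⟨q, hzq, hq, hno, hall⟩
    refine ⟨q + 1, by omega, (Tr_sh c N L J q).1 hq, ?_, ?_⟩
    · intro m hm hm' hT
      refine hno (m - 1) (by omega) (by omega) ((Tr_sh c N L J (m - 1)).2 ?_)
      rw [sub_add_cancel]; exact hT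
    · intro p' q' hp' hq' hpq' hd
      have h := hall (p' - 1) (q' - 1) ((Tr_sh c N L J _).2 (by rw [sub_add_cancel]; exact hp'))
        ((Tr_sh c N L J _).2 (by rw [sub_add_cancel]; exact hq')) (by omega) (by omega)
      rw [D_sh J hzq, D_sh J (by omega : p' - 1 < q' - 1), sub_add_cancel, sub_add_cancel] at h
      exact h
  · rintro ⟨q, hzq, hq, hno, hall⟩
    refine ⟨q - 1, by omega, (Tr_sh c N L J _).2 (by rw [sub_add_cancel]; exact hq), ?_, ?_⟩
    · intro m hm hm' hT
      exact hno (m + 1) (by omega) (by omega) ((Tr_sh c N L J m).1 hT)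
    · intro p' q' hp' hq' hpq' hd
      have h := hall (p' + 1) (q' + 1) ((Tr_sh c N L J _).1 hp') ((Tr_sh c N L J _).1 hq')
        (by omega) (by omega)
      rw [D_sh J (by omega : z < q - 1), D_sh J hpq', sub_add_cancel]
      exact h

lemma Ev_disj {c N : ℝ} {L : ℕ} {J : ℤ × (V ⊕ I) → ℝ} {z z' : ℤ} (hzz : z < z')
    (h : Ev s t c N L J z) (h' : Ev s t c N L J z') : False := by
  obtain ⟨hz, q, hzq, hq, hno, hall⟩ := h
  obtain ⟨hz', q', hzq', hq', hno', hall'⟩ := h'
  have hqz : q ≤ z' := by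
    by_contra hc
    exact hno z' hzz (by omega) hz'
  have h1 := hall z' q' hz' hq' hzq' (Or.inr hqz)
  have h2 := hall' z q hz hq hzq (Or.inl hqz)
  exact absurd h1 (not_lt.2 h2.le)

variable (μ : Measure ℝ) [IsProbabilityMeasure μ]

theorem Ev_null (c N : ℝ) (L : ℕ) :
    ∀ᵐ J ∂(Law V I μ), ∀ z, ¬ Ev s t c N L J z := by
  have hshift : ∀ z, Law V I μ {J | Ev s t c N L J (z + 1)} = Law V I μ {J | Ev s t c N L J z} := by
    intro z
    have h1 : {J : ℤ × (V ⊕ I) → ℝ | Ev s t c N L J (z + 1)} = sh ⁻¹' {J | Ev s t c N L J z} := by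
      ext J
      exact (Ev_sh c N L J z).symm
    rw [h1, ← Measure.map_apply sh_meas (Ev_meas c N L z), sh_law]
  have hshift2 : ∀ z, ∀ n : ℕ,
      Law V I μ {J | Ev s t c N L J (z + n)} = Law V I μ {J | Ev s t c N L J z} := by
    intro z n
    induction n with
    | zero => simp
    | succ n ih =>
      push_cast
      rw [← add_assoc, hshift, ih]
  rw [ae_all_iff]
  intro z
  have hdis : Pairwise (Function.onFun Disjoint
      fun n : ℕ => {J : ℤ × (V ⊕ I) → ℝ | Ev s t c N L J (z + n)}) := by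
    intro n n' hnn
    rw [Function.onFun, Set.disjoint_left]
    intro J h h'
    rcases lt_or_gt_of_ne hnn with h1 | h1
    · exact Ev_disj (by omega : z + (n : ℤ) < z + n') h h'
    · exact Ev_disj (by omega : z + (n' : ℤ) < z + n) h' h
  have hsum := tsum_meas_le_meas_iUnion_of_disjoint (Law V I μ)
    (fun n : ℕ => Ev_meas (s := s) (t := t) c N L (z + n)) hdis
  have hle : ∑' _ : ℕ, Law V I μ {J | Ev s t c N L J z} ≤ 1 := by
    calc ∑' _ : ℕ, Law V I μ {J | Ev s t c N L J z}
        = ∑' n : ℕ, Law V I μ {J | Ev s t c N L J (z + n)} :=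
          tsum_congr fun n => (hshift2 z n).symm
      _ ≤ _ := hsum
      _ ≤ 1 := prob_le_one
  have h0 : Law V I μ {J | Ev s t c N L J z} = 0 := by
    by_contra hne
    rw [ENNReal.tsum_const_eq_top_of_ne_zero hne] at hle
    exact absurd hle (by simp)
  rw [ae_iff]
  simpa using h0

/-! ### Genericity -/

lemma lin_null (hat : ∀ x, μ {x} = 0) {E : Type} (T : Finset E) (k : E → ℝ) {e0 : E}
    (he0 : e0 ∈ T) (hk : k e0 ≠ 0) :
    (Measure.infinitePi fun _ : E => μ) {J : E → ℝ | ∑ e ∈ T, J e * k e = 0} = 0 := by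
  classical
  set P := Measure.infinitePi fun _ : E => μ with hP
  set X : (E → ℝ) → ℝ := fun J => ∑ e ∈ T.erase e0, J e * k e with hX
  set Y : (E → ℝ) → ℝ := fun J => J e0 * k e0 with hY
  have hXm : Measurable X := by simp only [hX]; fun_prop
  have hYm : Measurable Y := by simp only [hY]; fun_prop
  have hind : IndepFun X Y P := by
    have h1 : iIndepFun (fun (e : E) (J : E → ℝ) => J e * k e) P :=
      iIndepFun_infinitePi (P := fun _ : E => μ) (X := fun e (x : ℝ) => x * k e)
        (fun e => by fun_prop)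
    have h2 := h1.indepFun_finset_sum_of_notMem (fun e => by fun_prop)
      (s := T.erase e0) (i := e0) (by simp)
    convert h2 using 1
    funext J
    simp [hX]
  have hset : {J : E → ℝ | ∑ e ∈ T, J e * k e = 0} =
      (fun J => (X J, Y J)) ⁻¹' {p : ℝ × ℝ | p.1 + p.2 = 0} := by
    ext J
    simp only [Set.mem_setOf_eq, Set.mem_preimage, hX, hY]
    rw [Finset.sum_erase_add _ _ he0]
  have hms : MeasurableSet {p : ℝ × ℝ | p.1 + p.2 = 0} :=
    measurableSet_eq_fun (by fun_prop) measurable_const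
  rw [hset, ← Measure.map_apply (hXm.prodMk hYm) hms,
    (indepFun_iff_map_prod_eq_prod_map_map hXm.aemeasurable hYm.aemeasurable).1 hind]
  haveI : IsProbabilityMeasure (P.map Y) := Measure.isProbabilityMeasure_map hYm.aemeasurable
  haveI : IsProbabilityMeasure (P.map X) := Measure.isProbabilityMeasure_map hXm.aemeasurable
  rw [Measure.prod_apply hms, lintegral_eq_zero_iff (measurable_measure_prodMk_left hms)]
  refine Filter.Eventually.of_forall fun x => ?_
  have h3 : Prod.mk x ⁻¹' {p : ℝ × ℝ | p.1 + p.2 = 0} = {-x} := by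
    ext y
    simp only [Set.mem_preimage, Set.mem_setOf_eq, Set.mem_singleton_iff]
    constructor <;> intro h <;> linarith
  change (Measure.map Y P) (Prod.mk x ⁻¹' {p : ℝ × ℝ | p.1 + p.2 = 0}) = 0
  rw [h3, Measure.map_apply hYm (measurableSet_singleton _)]
  have h4 : Y ⁻¹' {-x} = (fun J : E → ℝ => J e0) ⁻¹' {-x / k e0} := by
    ext J
    simp only [hY, Set.mem_preimage, Set.mem_singleton_iff]
    rw [eq_div_iff hk]
  rw [h4, ← Measure.map_apply (measurable_pi_apply e0) (measurableSet_singleton _)]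
  have h5 : P.map (fun J : E → ℝ => J e0) = μ := by
    rw [hP]; exact Measure.infinitePi_map_eval (fun _ : E => μ) e0
  rw [h5]
  exact hat _

theorem generic_ae (hat : ∀ x, μ {x} = 0) : ∀ᵐ J ∂(Law V I μ), Generic s t J := by
  classical
  unfold Generic
  rw [ae_all_iff]; intro p
  rw [ae_all_iff]; intro q
  rw [ae_all_iff]; intro A
  rw [ae_all_iff]; intro B
  by_cases h : ∃ e : ℤ × (V ⊕ I), e.1 ∈ Ico p q ∧ bd s t (cf A) e ≠ bd s t (cf B) e
  · obtain ⟨e0, he0, hne⟩ := h
    have h1 := lin_null μ hat (Ico p q ×ˢ (Finset.univ : Finset (V ⊕ I)))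
      (fun e => bd s t (cf A) e - bd s t (cf B) e) (e0 := e0)
      (by rw [Finset.mem_product]; exact ⟨he0, Finset.mem_univ _⟩) (sub_ne_zero.2 hne)
    rw [ae_iff]
    refine measure_mono_null ?_ h1
    intro J hJ
    simp only [Set.mem_setOf_eq, Classical.not_imp, not_not] at hJ ⊢
    have h2 := hJ.2
    unfold S en at h2
    rw [Finset.sum_product, ← sub_eq_zero.2 h2, ← Finset.sum_sub_distrib]
    refine Finset.sum_congr rfl fun n _ => ?_
    rw [← Finset.sum_sub_distrib]
    refine Finset.sum_congr rfl fun c _ => ?_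
    ring
  · exact Filter.Eventually.of_forall fun J hex => absurd hex h

/-- **Theorem.** Almost surely there is exactly one pair of ground states. -/
theorem main [Nonempty V] (hat : ∀ x, μ {x} = 0) (hsym : μ.map (fun x => -x) = μ)
    (hH : ∀ f : V → ℝ, (∀ i, f (s i) = f (t i)) → ∀ x y, f x = f y) :
    ∀ᵐ J ∂(Law V I μ), ∃ σ, Gr s t J σ ∧ ∀ τ, Gr s t J τ → τ = σ ∨ τ = -σ := by
  obtain ⟨c, N, hc, hcN, h0, h1⟩ := two_windows μ hat hsym
  obtain ⟨L, hL⟩ : ∃ L : ℕ, 2 * N * Fintype.card V < c * ((L : ℝ) - 1) := by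
    obtain ⟨L, hL⟩ := exists_nat_gt (2 * N * Fintype.card V / c + 1)
    refine ⟨L, ?_⟩
    have : 2 * N * Fintype.card V / c < L - 1 := by linarith
    rw [div_lt_iff₀ hc] at this
    linarith
  filter_upwards [generic_ae (s := s) (t := t) μ hat, Ev_null (s := s) (t := t) μ c N L,
    often (V := V) (I := I) μ h0 h1 L (fun k => (k : ℤ)) Nat.cast_injective,
    often (V := V) (I := I) μ h0 h1 L (fun k => -(k : ℤ))
      (fun a b h => by simpa using h)] with J hg hev hr hl
  obtain ⟨σ, hσ⟩ := exists_ground hg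
  refine ⟨σ, hσ, fun τ hτ => ?_⟩
  refine unique (T := fun z => Tr c N L J z) (fun z hz ρ hρ => hz.uniform hc hL hH hρ) ?_ ?_ ?_
    hσ hτ
  · intro K
    rw [Filter.frequently_atTop] at hr
    obtain ⟨k, hk, hT⟩ := hr (K.toNat + 1)
    refine ⟨_, ?_, hT⟩
    have h2 : (K : ℤ) < k := by omega
    nlinarith
  · intro K
    rw [Filter.frequently_atTop] at hl
    obtain ⟨k, hk, hT⟩ := hl ((-K).toNat + 1)
    refine ⟨_, ?_, hT⟩
    have h2 : -(K : ℤ) < k := by omega
    nlinarith
  · rintro ⟨z, q, hz, hzq, hq, hno, hall⟩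
    exact hev z ⟨hz, q, hzq, hq, hno, hall⟩

end Pool.Agent.TH761.EA
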